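import Pool.Agent.Helper56.RZ.GoalsD
import Pool.Agent.Helper12.RZ.F2

/-!
# PACKET RZ3-TV (MP_f32c9c_an): the twist with a general angle preserves volume
-/

set_option autoImplicit false

open Set Filter Topology MeasureTheory

open scoped ContDiff

namespace Pool.Agent.Helper29.RZ

open Pool.Agent.Helper56.RZ Pool.Agent.Helper12.RZ

variable {N : ℕ} {p : Fin 3 → End N}

theorem hasFDerivAt_angA (hp : Proj3 p) (d : Tw N p) (a : ℝ → ℝ) (ha : Ang a) (t : ℝ) (z : E N) :
    ∃ L : E N →L[ℝ] ℝ, HasFDerivAt (fun z => a (t * Tw.be (d.q z))) L z ∧ L (d.J z) = 0 := by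
  obtain ⟨L, hL, hLJ⟩ := hasFDerivAt_ang hp d t z
  have h1 : HasDerivAt a (deriv a (t * Tw.be (d.q z))) (t * Tw.be (d.q z)) :=
    ((ha.smooth.differentiable (by simp)) _).hasDerivAt
  have h2 := h1.comp_hasFDerivAt z hL
  refine ⟨_, h2, ?_⟩
  simp only [ContinuousLinearMap.smul_apply, hLJ, smul_zero]

theorem hasFDerivAt_Ha (hp : Proj3 p) (d : Tw N p) (a : ℝ → ℝ) (ha : Ang a) (t : ℝ) (z : E N) :
    ∃ D : End N, HasFDerivAt (d.Ha a t) D z ∧ |D.det| = 1 := by
  obtain ⟨L, hL, hLJ⟩ := hasFDerivAt_angA hp d a ha t z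
  have hc := (hL.cos.sub_const 1).smul ((P0 d).hasFDerivAt (x := z))
  have hs := hL.sin.smul (d.J.hasFDerivAt (x := z))
  have hH := ((hasFDerivAt_id (𝕜 := ℝ) z).add hc).add hs
  refine ⟨_, hH, ?_⟩
  have e : ((ContinuousLinearMap.id ℝ (E N) +
      ((Real.cos (a (t * Tw.be (d.q z))) - 1) • P0 d +
        (-Real.sin (a (t * Tw.be (d.q z))) • L).smulRight (P0 d z)) +
      (Real.sin (a (t * Tw.be (d.q z))) • d.J +
        (Real.cos (a (t * Tw.be (d.q z))) • L).smulRight (d.J z)) : End N) : E N →ₗ[ℝ] E N) =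
      Pool.Agent.Helper12.RZ.rot d (Real.cos (a (t * Tw.be (d.q z))))
        (Real.sin (a (t * Tw.be (d.q z)))) ∘ₗ
        LinearMap.transvection (L : E N →ₗ[ℝ] ℝ) (d.J z) := by
    ext1 v
    rw [LinearMap.comp_apply]
    have hT : LinearMap.transvection (L : E N →ₗ[ℝ] ℝ) (d.J z) v = v + L v • d.J z := rfl
    rw [hT, map_add, map_smul, rot_apply, rot_apply]
    have e1 : P0 d (d.J z) = d.J z := by
      rw [P0_apply, wc_J hp, wu_J hp, J_apply]
      match_scalars <;> ring
    have e2 : d.J (d.J z) = - P0 d z := by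
      rw [J_apply d (d.J z), wc_J hp, wu_J hp, P0_apply]
      match_scalars <;> ring
    rw [e1, e2]
    simp only [ContinuousLinearMap.coe_coe, ContinuousLinearMap.add_apply,
      ContinuousLinearMap.smul_apply, ContinuousLinearMap.smulRight_apply,
      ContinuousLinearMap.coe_id', id_eq, smul_eq_mul]
    match_scalars <;> ring
  rw [ContinuousLinearMap.det]
  erw [e]
  rw [LinearMap.det_comp, LinearMap.transvection.det]
  have : (L : E N →ₗ[ℝ] ℝ) (d.J z) = 0 := hLJ
  rw [this, add_zero, mul_one]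
  exact abs_det_rot hp d _ _ (Real.cos_sq_add_sin_sq _)

theorem tv (h : StmtTA) : StmtTV := by
  intro N p hp d a ha t
  have hD : ∀ z, |(fderiv ℝ (d.Ha a t) z).det| = 1 := by
    intro z
    obtain ⟨D, hD, hdet⟩ := hasFDerivAt_Ha hp d a ha t z
    rw [hD.fderiv]
    exact hdet
  refine ⟨hD, fun A hA => ?_⟩
  have hinj : Function.Injective (d.Ha a t) := by
    intro x y hxy
    have h1 := (h N p hp d a ha).2.2.1 t
    rw [← h1 x, ← h1 y, hxy]
  have h2 := lintegral_abs_det_fderiv_eq_addHaar_image (volume : Measure (E N)) hA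
    (f := d.Ha a t) (f' := fun z => fderiv ℝ (d.Ha a t) z) (fun x _ => by
      obtain ⟨D, hD, _⟩ := hasFDerivAt_Ha hp d a ha t x
      rw [hD.fderiv]
      exact hD.hasFDerivWithinAt) hinj.injOn
  rw [← h2]
  simp only [hD, ENNReal.ofReal_one, lintegral_const, Measure.restrict_apply MeasurableSet.univ,
    univ_inter, one_mul]

end Pool.Agent.Helper29.RZ
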